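import Pool.Agent.H705.GB.Stm

/-! # The gcd recursion for Goldbach pairs in the random model: package AS (project GB of helper705) -/

set_option autoImplicit false

namespace Pool.Agent.H494.GB

open MeasureTheory ProbabilityTheory Finset Filter Topology
open Pool.Agent.H705.TR (PrimeIn Model un P_GEN P_CRT P_UN P_MOD)
open Pool.Agent.H705.GB

/-- the growth estimates -/
theorem growth {ε D : ℝ} {j N z K T B H : ℕ} (hε : 0 < ε) (hε4 : ε ≤ 1 / 4) (hD1 : 42 ≤ D)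
    (hD2 : 8 * 3 ^ j ≤ D) (hl : 1 ≤ Real.log N) (hq : 30 ≤ (N : ℝ) ^ (1 / 4 : ℝ))
    (ha : D * Real.log N ^ 4 ≤ (N : ℝ) ^ (ε / 16))
    (hz : z = Nat.sqrt (2 * N) + 1) (hK : K = ⌈Real.log N ^ 4⌉₊) (hT : T = 3 + K * (2 * z + 1))
    (hB : B = ⌊(N : ℝ) ^ (1 / 2 + ε / 4)⌋₊) (hH : H = ⌊(N : ℝ) ^ (1 / 2 + ε)⌋₊ - 2) :
    4 ≤ N ∧ Glob z B N T H 0 ∧ Ok z B N T H K j 3 (N - (N + 1) % 2) ∧
    (K : ℝ) ≤ 2 * Real.log N ^ 4 ∧ (z : ℝ) ≤ 3 * (N : ℝ) ^ (1 / 2 : ℝ) ∧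
    (N : ℝ) ^ (1 / 2 : ℝ) * ((N : ℝ) ^ (ε / 16)) ^ 4 ≤ 2 * B ∧
    (H : ℝ) + 1 ≤ (N : ℝ) ^ (1 / 2 + ε) := by
  have hNpos : 0 < N := by
    rcases Nat.eq_zero_or_pos N with h | h
    · rw [h] at hl
      norm_num at hl
    · exact h
  have hN0 : (0 : ℝ) < N := by exact_mod_cast hNpos
  have hN1 : (1 : ℝ) ≤ N := by exact_mod_cast hNpos
  obtain ⟨l, hld⟩ : ∃ l, l = Real.log N := ⟨_, rfl⟩
  obtain ⟨q, hqd⟩ : ∃ q, q = (N : ℝ) ^ (1 / 4 : ℝ) := ⟨_, rfl⟩
  obtain ⟨s, hsd⟩ : ∃ s, s = (N : ℝ) ^ (1 / 2 : ℝ) := ⟨_, rfl⟩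
  obtain ⟨a, had⟩ : ∃ a, a = (N : ℝ) ^ (ε / 16) := ⟨_, rfl⟩
  have e1 : (N : ℝ) ^ (1 / 2 + ε / 4) = s * a ^ 4 := by
    rw [hsd, had, ← Real.rpow_natCast, ← Real.rpow_mul hN0.le, ← Real.rpow_add hN0]
    congr 1
    push_cast
    ring
  have e2 : (N : ℝ) ^ (1 / 2 + ε) = s * a ^ 16 := by
    rw [hsd, had, ← Real.rpow_natCast, ← Real.rpow_mul hN0.le, ← Real.rpow_add hN0]
    congr 1
    push_cast
    ring
  have e3 : s = q ^ 2 := by
    rw [hsd, hqd, ← Real.rpow_natCast, ← Real.rpow_mul hN0.le]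
    congr 1
    norm_num
  have e4 : (N : ℝ) = q ^ 4 := by
    rw [hqd, ← Real.rpow_natCast, ← Real.rpow_mul hN0.le]
    norm_num
  have e5 : a ^ 16 ≤ q := by
    rw [had, hqd, ← Real.rpow_natCast, ← Real.rpow_mul hN0.le]
    refine Real.rpow_le_rpow_of_exponent_le hN1 ?_
    push_cast
    linarith
  rw [e1] at hB
  rw [e2] at hH ⊢
  rw [← hld] at hl ha hK ⊢
  rw [← hqd] at hq
  rw [← had] at ha ⊢
  rw [← hsd]
  have hl4 : 1 ≤ l ^ 4 := one_le_pow₀ hl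
  have ha42 : 42 * l ^ 4 ≤ a := le_trans (mul_le_mul_of_nonneg_right hD1 (by linarith)) ha
  have ha1 : 42 ≤ a := by linarith
  have ha1' : 1 ≤ a := by linarith
  have ha0 : 0 ≤ a := by linarith
  have ha4 : a ≤ a ^ 4 := le_self_pow₀ ha1' (by norm_num)
  have ha16 : a ^ 5 ≤ a ^ 16 := pow_le_pow_right₀ ha1' (by norm_num)
  have ha416 : a ^ 4 ≤ a ^ 16 := pow_le_pow_right₀ ha1' (by norm_num)
  have hq0 : 0 ≤ q := by linarith
  have hs900 : 900 ≤ s := by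
    rw [e3]
    nlinarith
  have hs0 : 0 ≤ s := by linarith
  have hz1 : (z : ℝ) ≤ 3 * s := by
    have h1 : Nat.sqrt (2 * N) ^ 2 ≤ 2 * N := Nat.sqrt_le' (2 * N)
    have h2 : ((Nat.sqrt (2 * N) : ℕ) : ℝ) ^ 2 ≤ 2 * N := by exact_mod_cast h1
    have h3 : ((Nat.sqrt (2 * N) : ℕ) : ℝ) ≤ 2 * s := by
      refine abs_le_of_sq_le_sq' ?_ (by positivity) |>.2
      rw [mul_pow, e3]
      have : (q ^ 2) ^ 2 = q ^ 4 := by ring
      rw [this, ← e4]
      linarith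
    rw [hz]
    push_cast
    linarith
  have hz0 : (0 : ℝ) ≤ z := Nat.cast_nonneg z
  have hK1 : (K : ℝ) ≤ 2 * l ^ 4 := by
    have := Nat.ceil_lt_add_one (a := l ^ 4) (by positivity)
    rw [hK]
    linarith
  have hK0 : (0 : ℝ) ≤ K := Nat.cast_nonneg K
  have hls : 1 ≤ l ^ 4 * s := by nlinarith
  have hT1 : (T : ℝ) ≤ 17 * (l ^ 4 * s) := by
    rw [hT]
    push_cast
    have h1 : (2 * z + 1 : ℝ) ≤ 7 * s := by linarith
    have h2 : (K : ℝ) * (2 * z + 1) ≤ (2 * l ^ 4) * (7 * s) :=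
      mul_le_mul hK1 h1 (by positivity) (by positivity)
    linarith
  have hsa : 1 ≤ s * a ^ 4 := by nlinarith
  have hB1 : s * a ^ 4 ≤ 2 * B := by
    have h1 := Nat.lt_floor_add_one (s * a ^ 4)
    rw [← hB] at h1
    have h2 : (1 : ℝ) ≤ B := by
      rw [hB]
      have : 1 ≤ ⌊s * a ^ 4⌋₊ := Nat.le_floor (by exact_mod_cast hsa)
      exact_mod_cast this
    linarith
  have hB2 : (B : ℝ) ≤ s * a ^ 4 := by
    rw [hB]
    exact Nat.floor_le (by positivity)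
  have hTB : (T : ℝ) ≤ B := by
    have h1 : 34 * l ^ 4 ≤ a ^ 4 := by linarith
    have h2 : s * (34 * l ^ 4) ≤ s * a ^ 4 := mul_le_mul_of_nonneg_left h1 hs0
    linarith
  have hsa16 : 900 ≤ s * a ^ 16 := by
    have : 1 ≤ a ^ 16 := one_le_pow₀ ha1'
    nlinarith
  have hH1 : s * a ^ 16 ≤ H + 3 := by
    have h1 := Nat.lt_floor_add_one (s * a ^ 16)
    have h2 : ⌊s * a ^ 16⌋₊ ≤ H + 2 := by omega
    have h3 : (⌊s * a ^ 16⌋₊ : ℝ) ≤ H + 2 := by exact_mod_cast h2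
    linarith
  have hH2 : (H : ℝ) + 2 ≤ s * a ^ 16 := by
    have h0 : 2 ≤ ⌊s * a ^ 16⌋₊ := Nat.le_floor (by push_cast; linarith)
    have h1 : H + 2 ≤ ⌊s * a ^ 16⌋₊ := by omega
    have h2 := Nat.floor_le (a := s * a ^ 16) (by positivity)
    have h3 : (H : ℝ) + 2 ≤ ⌊s * a ^ 16⌋₊ := by exact_mod_cast h1
    linarith
  have hsq3 : s * a ^ 16 ≤ q ^ 3 := by
    have h1 : s * a ^ 16 ≤ s * q := mul_le_mul_of_nonneg_left e5 hs0
    have h2 : s * q = q ^ 3 := by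
      rw [e3]
      ring
    linarith
  have hsq3' : s * a ^ 4 ≤ q ^ 3 := (mul_le_mul_of_nonneg_left ha416 hs0).trans hsq3
  have hq34 : 30 * q ^ 3 ≤ q ^ 4 := by
    have h0 : 0 ≤ q ^ 3 := by positivity
    have : q ^ 4 = q * q ^ 3 := by ring
    rw [this]
    exact mul_le_mul_of_nonneg_right hq h0
  have hq3 : 1 ≤ q ^ 3 := one_le_pow₀ (by linarith)
  refine ⟨?_, ⟨by omega, by exact_mod_cast hTB, ?_⟩, ⟨by omega, by norm_num, by omega, by omega, ?_⟩,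
    hK1, hz1, hB1, by linarith⟩
  · have : (4 : ℝ) ≤ N := by linarith
    exact_mod_cast this
  · have : ((0 + 3 * H + 2 * T + 20 : ℕ) : ℝ) ≤ N := by
      push_cast
      linarith
    exact_mod_cast this
  · have h3j : (1 : ℝ) ≤ 3 ^ j := one_le_pow₀ (by norm_num)
    have hKB : (K : ℝ) * B ≤ (2 * l ^ 4) * (s * a ^ 4) :=
      mul_le_mul hK1 hB2 (Nat.cast_nonneg B) (by positivity)
    have h18 : 18 * (l ^ 4 * s) ≤ l ^ 4 * (s * a ^ 4) := by
      have h1 : 18 ≤ a ^ 4 := by linarith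
      have h2 := mul_le_mul_of_nonneg_left h1 (by linarith : 0 ≤ l ^ 4 * s)
      linarith
    have hsum : (1 : ℝ) + K * B + T ≤ 4 * (l ^ 4 * (s * a ^ 4)) := by
      have : 0 ≤ l ^ 4 * (s * a ^ 4) := by positivity
      linarith
    have h5 : (3 : ℝ) ^ j * (1 + K * B + T) ≤ 3 ^ j * (4 * (l ^ 4 * (s * a ^ 4))) :=
      mul_le_mul_of_nonneg_left hsum (by positivity)
    have h6 : (8 * 3 ^ j) * l ^ 4 ≤ a := le_trans (mul_le_mul_of_nonneg_right hD2 (by linarith)) ha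
    have h7 : ((8 * 3 ^ j) * l ^ 4) * (s * a ^ 4) ≤ a * (s * a ^ 4) :=
      mul_le_mul_of_nonneg_right h6 (by positivity)
    have h8 : a * (s * a ^ 4) ≤ s * a ^ 16 := by
      have : a * (s * a ^ 4) = s * a ^ 5 := by ring
      rw [this]
      exact mul_le_mul_of_nonneg_left ha16 hs0
    have h9 : (3 : ℝ) ^ j * (1 + K * B + T) ≤ H := by
      have : 3 ^ j * (4 * (l ^ 4 * (s * a ^ 4))) = ((8 * 3 ^ j) * l ^ 4) * (s * a ^ 4) / 2 := by ring
      linarith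
    have h10 : ((3 ^ j * (1 + K * B + T) : ℕ) : ℝ) ≤ H := by
      push_cast
      exact h9
    have h11 : 3 ^ j * (1 + K * B + T) ≤ H := by exact_mod_cast h10
    refine le_trans (Nat.mul_le_mul_left _ ?_) h11
    omega

theorem T_AS (hRUN : P_RUN) (hST2 : P_ST2) (hFLB : P_FLB) (hLNK : P_LNK) (hRCH : P_RCH)
    (hIND : P_IND) (hPR : P_PR) (hNT1 : P_NT1) (hBAD : P_BAD) : P_AS := by
  intro Ω _ M P Y hF hM
  have := hM.prob
  obtain ⟨c₀, hc₀, hnt⟩ := hNT1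
  suffices h : ∀ i : ℕ, ∀ᵐ ω ∂P, ∀ᶠ N : ℕ in atTop,
      Free N (F (par fun m => Y m ω) N + 1) (par (fun m => Y m ω) (F (par fun m => Y m ω) N + 1))
        (par (fun m => Y m ω) (2 * N - (F (par fun m => Y m ω) N + 1))) ∧
      (N : ℝ) - F (par fun m => Y m ω) N ≤ (N : ℝ) ^ (1 / 2 + 1 / ((i : ℝ) + 4)) by
    rw [← ae_all_iff] at h
    filter_upwards [h] with ω hω ε hε
    obtain ⟨i, hi⟩ := exists_nat_one_div_lt hε
    filter_upwards [hω i, eventually_ge_atTop 1] with N hN h1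
    refine ⟨hN.1, hN.2.trans (Real.rpow_le_rpow_of_exponent_le (by exact_mod_cast h1) ?_)⟩
    have h2 : 1 / ((i : ℝ) + 4) ≤ 1 / ((i : ℝ) + 1) :=
      one_div_le_one_div_of_le (by positivity) (by linarith)
    linarith
  intro i
  obtain ⟨ε, hεd⟩ : ∃ ε, ε = 1 / ((i : ℝ) + 4) := ⟨_, rfl⟩
  rw [← hεd]
  have hε : 0 < ε := by
    rw [hεd]
    positivity
  have hε4 : ε ≤ 1 / 4 := by
    rw [hεd]
    have : (0 : ℝ) ≤ i := Nat.cast_nonneg i
    exact one_div_le_one_div_of_le (by norm_num) (by linarith)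
  obtain ⟨C, hC, hbadC⟩ := hBAD (ε / 16) (by positivity)
  obtain ⟨j, hj⟩ := exists_nat_ge (16 / ε)
  have hj' : 16 ≤ ε * ((j : ℝ) + 1) := by
    rw [div_le_iff₀ hε] at hj
    linarith
  obtain ⟨D, hD⟩ : ∃ D : ℝ, D = 42 + 8 * 3 ^ j + 12 * C := ⟨_, rfl⟩
  have hD1 : 42 ≤ D := by
    have : (0 : ℝ) ≤ 8 * 3 ^ j := by positivity
    rw [hD]
    linarith
  have hD2 : 8 * 3 ^ j ≤ D := by
    rw [hD]
    linarith
  have hD3 : 12 * C ≤ D := by
    have : (0 : ℝ) ≤ 8 * 3 ^ j := by positivity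
    rw [hD]
    linarith
  have hD0 : 0 < D := by linarith
  have hlog : Tendsto (fun N : ℕ => Real.log N) atTop atTop :=
    Real.tendsto_log_atTop.comp tendsto_natCast_atTop_atTop
  have hquart : Tendsto (fun N : ℕ => (N : ℝ) ^ (1 / 4 : ℝ)) atTop atTop :=
    (tendsto_rpow_atTop (by norm_num)).comp tendsto_natCast_atTop_atTop
  have hpow : ∀ᶠ N : ℕ in atTop, D * Real.log N ^ 4 ≤ (N : ℝ) ^ (ε / 16) := by
    have h := (isLittleO_log_rpow_rpow_atTop (s := ε / 16) (4 : ℝ) (by positivity)).bound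
      (c := 1 / D) (by positivity)
    have h' := tendsto_natCast_atTop_atTop.eventually h
    filter_upwards [h', hlog.eventually_ge_atTop 0] with N hN hl0
    rw [show (4 : ℝ) = ((4 : ℕ) : ℝ) by norm_num, Real.rpow_natCast, Real.norm_eq_abs,
      Real.norm_eq_abs, abs_of_nonneg (by positivity),
      abs_of_nonneg (Real.rpow_nonneg (Nat.cast_nonneg N) _)] at hN
    rw [one_div, ← div_eq_inv_mul, le_div_iff₀ hD0] at hN
    linarith
  obtain ⟨N₀, hN₀⟩ : ∃ N₀ : ℕ, ∀ N ≥ N₀, 1 ≤ Real.log N ∧ 8 / c₀ ^ 2 ≤ Real.log N ∧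
      c₀ ≤ Real.log N ∧ 30 ≤ (N : ℝ) ^ (1 / 4 : ℝ) ∧ D * Real.log N ^ 4 ≤ (N : ℝ) ^ (ε / 16) := by
    have h := ((hlog.eventually_ge_atTop 1).and ((hlog.eventually_ge_atTop (8 / c₀ ^ 2)).and
      ((hlog.eventually_ge_atTop c₀).and ((hquart.eventually_ge_atTop 30).and hpow))))
    exact eventually_atTop.1 h
  -- the bad events
  obtain ⟨Ev, hEv⟩ : ∃ Ev : ℕ → Set Ω, Ev = fun N => {ω | ¬ Reach (Nat.sqrt (2 * N) + 1)
      ⌊(N : ℝ) ^ (1 / 2 + ε / 4)⌋₊ N (fun _ _ _ => True) ⌈Real.log N ^ 4⌉₊ j 3 (N - (N + 1) % 2)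
      (par fun i => Y i ω)} := ⟨_, rfl⟩
  have hbad : ∀ N ≥ N₀, P.real (Ev N) ≤ 2 * (1 / (N : ℝ) ^ 2) := by
    intro N hN
    obtain ⟨a1, a2, a3, a4, a5⟩ := hN₀ N hN
    obtain ⟨z, hz⟩ : ∃ z, z = Nat.sqrt (2 * N) + 1 := ⟨_, rfl⟩
    obtain ⟨K, hK⟩ : ∃ K, K = ⌈Real.log N ^ 4⌉₊ := ⟨_, rfl⟩
    obtain ⟨T, hT⟩ : ∃ T, T = 3 + K * (2 * z + 1) := ⟨_, rfl⟩
    obtain ⟨B, hB⟩ : ∃ B, B = ⌊(N : ℝ) ^ (1 / 2 + ε / 4)⌋₊ := ⟨_, rfl⟩
    obtain ⟨H, hH⟩ : ∃ H, H = ⌊(N : ℝ) ^ (1 / 2 + ε)⌋₊ - 2 := ⟨_, rfl⟩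
    obtain ⟨g1, g2, g3, g4, g5, g6, -⟩ := growth hε hε4 hD1 hD2 a1 a4 a5 hz hK hT hB hH
    have hKl : Real.log N ^ 4 ≤ K := by
      rw [hK]
      exact Nat.le_ceil _
    rw [hEv]
    simp only
    rw [← hz, ← hK, ← hB]
    have hNp : (0 : ℝ) < N := by exact_mod_cast (by omega : 0 < N)
    obtain ⟨l, hld⟩ : ∃ l, l = Real.log N := ⟨_, rfl⟩
    obtain ⟨l2, hl2d⟩ : ∃ l2, l2 = Real.log (2 * N) := ⟨_, rfl⟩
    have hl0 : 0 < l := by linarith
    have hl2 : l2 = Real.log 2 + l := by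
      rw [hl2d, hld]
      exact Real.log_mul (by norm_num) hNp.ne'
    have hlog2 : 0 < Real.log 2 := Real.log_pos (by norm_num)
    have hlog2' : Real.log 2 ≤ 1 := by
      have := Real.log_two_lt_d9
      linarith
    have hll2 : l ≤ l2 := by linarith
    have hl2l : l2 ≤ 2 * l := by linarith
    have hl20 : 0 < l2 := by linarith
    have hδ0 : 0 ≤ (c₀ / l2) ^ 2 := by positivity
    have hδ1' : c₀ / l2 ≤ 1 := by
      rw [div_le_one hl20]
      linarith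
    have hδ1 : (c₀ / l2) ^ 2 ≤ 1 := pow_le_one₀ (by positivity) hδ1'
    have hβ0 : 0 ≤ C * z * (N : ℝ) ^ (ε / 16) / B := by positivity
    have hGlob := g2
    obtain ⟨hG1, hG2, hG3⟩ := g2
    have hind := hIND Ω M P Y hM z B N T H 0 (fun _ _ _ => True) 1 1 ((c₀ / l2) ^ 2)
      (C * z * (N : ℝ) ^ (ε / 16) / B) 0 hGlob hδ0 hδ1 hβ0 le_rfl (by
        intro c hc1 hc2 hc3
        refine ⟨by simp, by simp, ?_⟩
        have hc : 3 ≤ c := by omega
        have hlogc : ∀ m : ℕ, 3 ≤ m → m ≤ 2 * N → c₀ / l2 ≤ c₀ / Real.log m := by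
          intro m hm1 hm2
          have h1 : 0 < Real.log m := Real.log_pos (by exact_mod_cast (by omega : 1 < m))
          have h2 : Real.log m ≤ l2 := by
            rw [hl2d]
            exact Real.log_le_log (by exact_mod_cast (by omega : 0 < m)) (by exact_mod_cast hm2)
          exact div_le_div_of_nonneg_left hc₀.le h1 h2
        by_cases hcN : c = N
        · have e : {ω | R z N c (par (fun i => Y i ω) c) (par (fun i => Y i ω) (2 * N - c))} =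
              {ω | r z N (par (fun i => Y i ω) N)} := by
            ext ω
            have h2 : 2 * N - N = N := by omega
            simp only [Set.mem_ofPred_eq, R, hcN, h2, and_self]
          rw [e, (hPR Ω M P Y hM).1 N (fun y => r z N y) (hcN ▸ hc1)]
          refine le_trans ?_ (hnt z N (M N) (by omega) (hF N))
          refine le_trans ?_ (hlogc N (by omega) (by omega))
          rw [pow_two]
          exact mul_le_of_le_one_left (by positivity) hδ1'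
        · have e : {ω | R z N c (par (fun i => Y i ω) c) (par (fun i => Y i ω) (2 * N - c))} =
              {ω | (fun y => r z c y) (par (fun i => Y i ω) c) ∧
                (fun y => r z (2 * N - c) y) (par (fun i => Y i ω) (2 * N - c))} := rfl
          rw [e, (hPR Ω M P Y hM).2 c (2 * N - c) _ _ hc1 (by omega) (by omega), pow_two]
          exact mul_le_mul ((hlogc c hc (by omega)).trans (hnt z c (M c) hc (hF c)))
            ((hlogc (2 * N - c) (by omega) (by omega)).trans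
              (hnt z (2 * N - c) (M (2 * N - c)) (by omega) (hF (2 * N - c))))
            (by positivity) (le_trans (by positivity) (hnt z c (M c) hc (hF c)) |> fun h => by
              refine le_trans ?_ h
              have : (0 : ℝ) ≤ 0 := le_rfl
              positivity))
      (fun n c h1 h2 h3 h4 h5 => hbadC Ω M P Y hF hM z B N T H 0 hGlob n c h1 h2 h3 h4 h5)
      K j 3 (N - (N + 1) % 2) g3
    obtain ⟨hm, -, -, hp⟩ := hind
    have hcompl : P.real {ω | ¬ Reach z B N (fun _ _ _ => True) K j 3 (N - (N + 1) % 2)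
        (par fun i => Y i ω)} = 1 - P.real {ω | Reach z B N (fun _ _ _ => True) K j 3
        (N - (N + 1) % 2) (par fun i => Y i ω)} := by
      have := probReal_compl_eq_one_sub (μ := P) hm
      exact this
    rw [hcompl]
    have h3 : (1 - (c₀ / l2) ^ 2) ^ K ≤ 1 / (N : ℝ) ^ 2 := by
      have e1 : 1 - (c₀ / l2) ^ 2 ≤ Real.exp (-(c₀ / l2) ^ 2) := by
        have := Real.add_one_le_exp (-(c₀ / l2) ^ 2)
        linarith
      have e2 : (1 - (c₀ / l2) ^ 2) ^ K ≤ Real.exp (-(c₀ / l2) ^ 2) ^ K :=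
        pow_le_pow_left₀ (by linarith) e1 _
      refine e2.trans ?_
      rw [← Real.exp_nat_mul]
      have e3 : 1 / (N : ℝ) ^ 2 = Real.exp (-(2 * l)) := by
        rw [Real.exp_neg, hld, two_mul, Real.exp_add, Real.exp_log hNp, one_div, pow_two]
      rw [e3]
      refine Real.exp_le_exp.2 ?_
      have e4 : l ^ 4 * (c₀ / l2) ^ 2 ≤ K * (c₀ / l2) ^ 2 := by
        rw [hld]
        exact mul_le_mul_of_nonneg_right hKl hδ0
      have e5 : 2 * l ≤ l ^ 4 * (c₀ / l2) ^ 2 := by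
        rw [div_pow, mul_div_assoc', le_div_iff₀ (by positivity)]
        have f1 : l2 ^ 2 ≤ 4 * l ^ 2 := by nlinarith
        have f2 : 8 ≤ l * c₀ ^ 2 := by
          rw [← hld, div_le_iff₀ (by positivity)] at a2
          exact a2
        have f3 : 2 * l * l2 ^ 2 ≤ 2 * l * (4 * l ^ 2) :=
          mul_le_mul_of_nonneg_left f1 (by positivity)
        have f4 : 8 * l ^ 3 ≤ (l * c₀ ^ 2) * l ^ 3 :=
          mul_le_mul_of_nonneg_right f2 (by positivity)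
        have f5 : (l * c₀ ^ 2) * l ^ 3 = l ^ 4 * c₀ ^ 2 := by ring
        have f6 : 2 * l * (4 * l ^ 2) = 8 * l ^ 3 := by ring
        linarith
      linarith
    have h4 : ((K : ℝ) * (C * z * (N : ℝ) ^ (ε / 16) / B)) ^ (j + 1) ≤ 1 / (N : ℝ) ^ 2 := by
      obtain ⟨a, had⟩ : ∃ a, a = (N : ℝ) ^ (ε / 16) := ⟨_, rfl⟩
      obtain ⟨s, hsd⟩ : ∃ s, s = (N : ℝ) ^ (1 / 2 : ℝ) := ⟨_, rfl⟩
      rw [← had] at a5 g6 ⊢
      rw [← hsd] at g5 g6
      rw [← hld] at g4 a1 a5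
      have ha0 : 0 < a := by
        rw [had]
        positivity
      have hs0 : 0 < s := by
        rw [hsd]
        positivity
      have hBp : (0 : ℝ) < B := by
        have : 0 < s * a ^ 4 := by positivity
        linarith
      have k1 : (K : ℝ) * (C * z * a / B) ≤ 1 / a ^ 2 := by
        rw [mul_div_assoc', div_le_div_iff₀ hBp (by positivity)]
        have m1 : (K : ℝ) * (C * z * a) ≤ (2 * l ^ 4) * (C * (3 * s) * a) := by
          refine mul_le_mul g4 ?_ (by positivity) (by positivity)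
          refine mul_le_mul_of_nonneg_right ?_ ha0.le
          exact mul_le_mul_of_nonneg_left g5 hC.le
        have m2 : (2 * l ^ 4) * (C * (3 * s) * a) * a ^ 2 = (12 * C * l ^ 4) * (s * a ^ 3) / 2 := by
          ring
        have m3 : 12 * C * l ^ 4 ≤ a := le_trans (mul_le_mul_of_nonneg_right hD3 (by positivity)) a5
        have m4 : (12 * C * l ^ 4) * (s * a ^ 3) ≤ a * (s * a ^ 3) :=
          mul_le_mul_of_nonneg_right m3 (by positivity)
        have m5 : a * (s * a ^ 3) = s * a ^ 4 := by ring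
        have m6 := mul_le_mul_of_nonneg_right m1 (by positivity : 0 ≤ a ^ 2)
        linarith
      have k2 : ((K : ℝ) * (C * z * a / B)) ^ (j + 1) ≤ (1 / a ^ 2) ^ (j + 1) :=
        pow_le_pow_left₀ (by positivity) k1 _
      refine k2.trans ?_
      rw [one_div_pow]
      refine one_div_le_one_div_of_le (by positivity) ?_
      rw [← pow_mul, had, ← Real.rpow_natCast, ← Real.rpow_natCast, ← Real.rpow_mul hNp.le]
      refine Real.rpow_le_rpow_of_exponent_le (by exact_mod_cast (by omega : 1 ≤ N)) ?_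
      push_cast
      linarith
    linarith
  -- Borel-Cantelli
  have hsum : ∑' N : ℕ, P (if N₀ ≤ N then Ev N else ∅) ≠ ⊤ := by
    have h1 : Summable (fun N : ℕ => 2 * (1 / (N : ℝ) ^ 2)) :=
      (Real.summable_one_div_nat_pow.2 (by norm_num)).mul_left 2
    have h2 : ∀ N : ℕ, P (if N₀ ≤ N then Ev N else ∅) ≤ ENNReal.ofReal (2 * (1 / (N : ℝ) ^ 2)) := by
      intro N
      split_ifs with hN
      · rw [← ENNReal.ofReal_toReal (measure_ne_top P (Ev N))]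
        exact ENNReal.ofReal_le_ofReal (hbad N hN)
      · rw [measure_empty]
        exact zero_le
    refine ne_top_of_le_ne_top ?_ (ENNReal.tsum_le_tsum h2)
    rw [← ENNReal.ofReal_tsum_of_nonneg (fun N => by positivity) h1]
    exact ENNReal.ofReal_ne_top
  have hBC := ae_eventually_notMem hsum
  filter_upwards [hBC] with ω hω
  filter_upwards [hω, eventually_ge_atTop N₀] with N hN hNN
  rw [if_pos hNN, hEv, Set.mem_ofPred_eq, not_not] at hN
  obtain ⟨a1, a2, a3, a4, a5⟩ := hN₀ N hNN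
  obtain ⟨z, hz⟩ : ∃ z, z = Nat.sqrt (2 * N) + 1 := ⟨_, rfl⟩
  obtain ⟨K, hK⟩ : ∃ K, K = ⌈Real.log N ^ 4⌉₊ := ⟨_, rfl⟩
  obtain ⟨T, hT⟩ : ∃ T, T = 3 + K * (2 * z + 1) := ⟨_, rfl⟩
  obtain ⟨B, hB⟩ : ∃ B, B = ⌊(N : ℝ) ^ (1 / 2 + ε / 4)⌋₊ := ⟨_, rfl⟩
  obtain ⟨H, hH⟩ : ∃ H, H = ⌊(N : ℝ) ^ (1 / 2 + ε)⌋₊ - 2 := ⟨_, rfl⟩
  obtain ⟨g1, g2, g3, g4, g5, g6, g7⟩ := growth hε hε4 hD1 hD2 a1 a4 a5 hz hK hT hB hH
  rw [← hz, ← hK, ← hB] at hN
  have hpar : ∀ m, par (fun i => Y i ω) m % 2 = m % 2 := by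
    intro m
    unfold par
    omega
  obtain ⟨n', c', k1, k2, k3, k4, k5, k6, k7, -⟩ := hLNK z B N T H 0 (fun _ _ _ => True) K j 3
    (N - (N + 1) % 2) (par fun i => Y i ω) g2 g3 hpar hN
  obtain ⟨hG1, hG2, hG3⟩ := g2
  have hfree : Free N c' (par (fun i => Y i ω) c') (par (fun i => Y i ω) (2 * N - c')) := by
    refine ((hRCH.2.2.2 z N c' _ _).2 ?_ k4 k7)
    have h1 := Nat.lt_succ_sqrt' (2 * N)
    rw [hz]
    refine lt_of_lt_of_le h1 (Nat.pow_le_pow_left ?_ 2)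
    omega
  have hfl := hFLB.2.2.1 (par fun i => Y i ω) N n' c' (by omega) hfree
  have hrun := (hRUN (par fun i => Y i ω) N (by omega)).2
  rw [(hST2 (fun i => Y i ω) N g1).1, k6, hfl] at hrun
  rw [hrun]
  refine ⟨hfree, ?_⟩
  have h1 : (N : ℝ) ≤ c' + H := by exact_mod_cast k5
  have h4 : (F (par fun i => Y i ω) N : ℝ) + 1 = c' := by exact_mod_cast hrun
  linarith

end Pool.Agent.H494.GB
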